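import Pool.Agent.L5helper98.CQ.Stmts

/-!
Project CQ, task Col: iterated random colouring of a hypergraph.
-/

set_option autoImplicit false

namespace Pool.Agent.L5helper61.CQ

open Finset Pool.Agent.L5helper98.CQ

theorem card_mono {n Q : ℕ} (e : Finset (Fin n)) (v₀ : Fin n) (hv : v₀ ∈ e) :
    (univ.filter (fun c : Fin n → Fin Q => ∀ u ∈ e, ∀ w ∈ e, c u = c w)).card ≤
      Q ^ (n - (e.card - 1)) := by
  classical
  have h1 : Fintype.card ({x : Fin n // x ∉ e.erase v₀} → Fin Q) = Q ^ (n - (e.card - 1)) := by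
    rw [Fintype.card_fun, Fintype.card_fin, Fintype.card_of_subtype ((e.erase v₀)ᶜ) (fun x => mem_compl),
      card_compl, Fintype.card_fin, card_erase_of_mem hv]
  rw [← h1, ← card_univ]
  refine card_le_card_of_injOn (fun c x => c x.1) (fun _ _ => mem_univ _) ?_
  intro c hc c' hc' h
  have hc1 := (mem_filter.1 hc).2
  have hc2 := (mem_filter.1 hc').2
  have h2 : ∀ x, x ∉ e.erase v₀ → c x = c' x := fun x hx => congrFun h ⟨x, hx⟩
  have h3 : c v₀ = c' v₀ := h2 v₀ (by simp)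
  funext x
  by_cases hx : x ∈ e
  · rw [hc1 x hx v₀ hv, hc2 x hx v₀ hv, h3]
  · exact h2 x (fun h4 => hx (mem_of_mem_erase h4))

/-- the monochromatic sets inside `U` -/
def mono {n Q : ℕ} (𝓗 : Finset (Finset (Fin n))) (U : Finset (Fin n)) (c : Fin n → Fin Q) :
    Finset (Finset (Fin n)) :=
  𝓗.filter (fun e => e ⊆ U ∧ ∀ u ∈ e, ∀ w ∈ e, c u = c w)

theorem exists_good {n : ℕ} {R : Finset (Fin n)} {𝓗 : Finset (Finset (Fin n))} {Q : ℕ} {ρ : ℝ}
    (hQ : 1 ≤ Q) (hρ : 0 ≤ ρ) (hne : ∀ e ∈ 𝓗, e.Nonempty ∧ e ⊆ R)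
    (hdeg : ∀ v ∈ R, ∑ e ∈ 𝓗.filter (fun e => v ∈ e), (1 / (Q : ℝ)) ^ (e.card - 1) ≤ ρ)
    (U : Finset (Fin n)) (hU : U ⊆ R) :
    ∃ c : Fin n → Fin Q, ((mono 𝓗 U c).card : ℝ) ≤ ρ * U.card := by
  classical
  have hQ0 : (0 : ℝ) < Q := by exact_mod_cast hQ
  have hne' : (univ : Finset (Fin n → Fin Q)).Nonempty := ⟨fun _ => ⟨0, hQ⟩, mem_univ _⟩
  have key : ∑ c : Fin n → Fin Q, ((mono 𝓗 U c).card : ℝ) ≤
      ∑ _c : Fin n → Fin Q, ρ * U.card := by
    have h1 : ∀ c : Fin n → Fin Q, ((mono 𝓗 U c).card : ℝ) =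
        ∑ e ∈ 𝓗.filter (fun e => e ⊆ U), (if ∀ u ∈ e, ∀ w ∈ e, c u = c w then (1 : ℝ) else 0) := by
      intro c
      rw [mono, ← filter_filter, card_filter]
      push_cast
      rfl
    rw [sum_congr rfl fun c _ => h1 c, sum_comm, sum_const, card_univ, Fintype.card_fun,
      Fintype.card_fin, Fintype.card_fin, nsmul_eq_mul]
    have h2 : ∀ e ∈ 𝓗.filter (fun e => e ⊆ U),
        ∑ c : Fin n → Fin Q, (if ∀ u ∈ e, ∀ w ∈ e, c u = c w then (1 : ℝ) else 0) ≤
          (Q : ℝ) ^ n * (1 / (Q : ℝ)) ^ (e.card - 1) := by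
      intro e he
      obtain ⟨v₀, hv₀⟩ := (hne e (mem_filter.1 he).1).1
      have h3 := card_mono (Q := Q) e v₀ hv₀
      have h4 : ∑ c : Fin n → Fin Q, (if ∀ u ∈ e, ∀ w ∈ e, c u = c w then (1 : ℝ) else 0) =
          ((univ.filter (fun c : Fin n → Fin Q => ∀ u ∈ e, ∀ w ∈ e, c u = c w)).card : ℝ) := by
        rw [card_filter]
        push_cast
        rfl
      rw [h4]
      have h5 : e.card - 1 ≤ n := by
        have := card_le_univ e
        rw [Fintype.card_fin] at this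
        omega
      calc ((univ.filter (fun c : Fin n → Fin Q => ∀ u ∈ e, ∀ w ∈ e, c u = c w)).card : ℝ)
          ≤ ((Q ^ (n - (e.card - 1)) : ℕ) : ℝ) := by exact_mod_cast h3
        _ = (Q : ℝ) ^ n * (1 / (Q : ℝ)) ^ (e.card - 1) := by
          push_cast
          rw [pow_sub₀ _ hQ0.ne' h5, one_div, inv_pow]
    refine (sum_le_sum h2).trans ?_
    rw [← mul_sum]
    push_cast
    refine mul_le_mul_of_nonneg_left ?_ (by positivity)
    calc ∑ e ∈ 𝓗.filter (fun e => e ⊆ U), (1 / (Q : ℝ)) ^ (e.card - 1)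
        ≤ ∑ e ∈ 𝓗.filter (fun e => e ⊆ U), ∑ v ∈ U, (if v ∈ e then
            (1 / (Q : ℝ)) ^ (e.card - 1) else 0) := by
          refine sum_le_sum fun e he => ?_
          obtain ⟨v₀, hv₀⟩ := (hne e (mem_filter.1 he).1).1
          have h6 : v₀ ∈ U := (mem_filter.1 he).2 hv₀
          have h7 : (if v₀ ∈ e then (1 / (Q : ℝ)) ^ (e.card - 1) else 0) =
              (1 / (Q : ℝ)) ^ (e.card - 1) := if_pos hv₀
          refine h7.symm.le.trans ?_
          exact single_le_sum (f := fun v => if v ∈ e then (1 / (Q : ℝ)) ^ (e.card - 1) else 0)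
            (fun v _ => by
              split_ifs
              · positivity
              · exact le_rfl) h6
      _ = ∑ v ∈ U, ∑ e ∈ 𝓗.filter (fun e => e ⊆ U), (if v ∈ e then
            (1 / (Q : ℝ)) ^ (e.card - 1) else 0) := sum_comm
      _ ≤ ∑ v ∈ U, ρ := by
          refine sum_le_sum fun v hv => ?_
          refine le_trans ?_ (hdeg v (hU hv))
          rw [sum_filter (fun e => v ∈ e)]
          refine sum_le_sum_of_subset_of_nonneg (filter_subset _ _) fun e _ _ => ?_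
          split_ifs
          · positivity
          · exact le_rfl
      _ = ρ * U.card := by
          rw [sum_const, nsmul_eq_mul, mul_comm]
  obtain ⟨c, _, hc⟩ := exists_le_of_sum_le hne' key
  exact ⟨c, hc⟩

theorem iterate {n : ℕ} {R : Finset (Fin n)} {𝓗 : Finset (Finset (Fin n))} {Q : ℕ} {ρ : ℝ}
    (hQ : 1 ≤ Q) (hρ : 0 ≤ ρ) (hne : ∀ e ∈ 𝓗, e.Nonempty ∧ e ⊆ R)
    (hdeg : ∀ v ∈ R, ∑ e ∈ 𝓗.filter (fun e => v ∈ e), (1 / (Q : ℝ)) ^ (e.card - 1) ≤ ρ)
    (j : ℕ) : ∀ U : Finset (Fin n), U ⊆ R → ρ ^ j * U.card < 1 →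
    ∃ c : Fin n → ℕ, (∀ v ∈ U, c v < j * Q) ∧
      ∀ e ∈ 𝓗, e ⊆ U → ∃ u ∈ e, ∃ w ∈ e, c u ≠ c w := by
  classical
  induction j with
  | zero =>
    intro U hU h
    have h0 : U = ∅ := by
      rw [pow_zero, one_mul] at h
      have : U.card < 1 := by exact_mod_cast h
      exact card_eq_zero.1 (by omega)
    subst h0
    refine ⟨fun _ => 0, by simp, fun e he h2 => ?_⟩
    obtain ⟨v, hv⟩ := (hne e he).1
    exact absurd (h2 hv) (notMem_empty _)
  | succ j ih =>
    intro U hU h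
    obtain ⟨c, hc⟩ := exists_good hQ hρ hne hdeg U hU
    have hsel : ∀ e ∈ mono 𝓗 U c, ∃ v, v ∈ e := fun e he => (hne e (mem_filter.1 he).1).1
    let U' : Finset (Fin n) := (mono 𝓗 U c).attach.image fun e => (hsel e.1 e.2).choose
    have hsub : U' ⊆ U := by
      intro v hv
      obtain ⟨e, _, rfl⟩ := mem_image.1 hv
      exact (mem_filter.1 e.2).2.1 (hsel e.1 e.2).choose_spec
    have hmem : ∀ e ∈ mono 𝓗 U c, ∃ v ∈ e, v ∈ U' := fun e he =>
      ⟨(hsel e he).choose, (hsel e he).choose_spec,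
        mem_image.2 ⟨⟨e, he⟩, mem_attach _ _, rfl⟩⟩
    have hcard : (U'.card : ℝ) ≤ ρ * U.card := by
      refine le_trans ?_ hc
      have h1 : U'.card ≤ (mono 𝓗 U c).card := card_image_le.trans (card_attach).le
      exact_mod_cast h1
    obtain ⟨c', h1, h2⟩ := ih U' (hsub.trans hU) (by
      refine lt_of_le_of_lt (mul_le_mul_of_nonneg_left hcard (pow_nonneg hρ j)) ?_
      rw [← mul_assoc, ← pow_succ]
      exact h)
    refine ⟨fun v => if v ∈ U' then c' v else j * Q + c v, ?_, ?_⟩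
    · intro v _
      have h3 : (j + 1) * Q = j * Q + Q := by ring
      rw [h3]
      show (if v ∈ U' then c' v else j * Q + c v) < j * Q + Q
      split_ifs with h4
      · exact (h1 v h4).trans_le (Nat.le_add_right _ _)
      · exact Nat.add_lt_add_left (c v).2 _
    · intro e he heU
      by_cases hA : e ⊆ U'
      · obtain ⟨u, hu, w, hw, h3⟩ := h2 e he hA
        refine ⟨u, hu, w, hw, ?_⟩
        show (if u ∈ U' then c' u else j * Q + c u) ≠ (if w ∈ U' then c' w else j * Q + c w)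
        rw [if_pos (hA hu), if_pos (hA hw)]
        exact h3
      · by_cases hB : ∃ u ∈ e, u ∈ U'
        · obtain ⟨u, hu, hu'⟩ := hB
          obtain ⟨w, hw, hw'⟩ := not_subset.1 hA
          refine ⟨u, hu, w, hw, ?_⟩
          show (if u ∈ U' then c' u else j * Q + c u) ≠ (if w ∈ U' then c' w else j * Q + c w)
          rw [if_pos hu', if_neg hw']
          have := h1 u hu'
          omega
        · have hC : ¬ ∀ u ∈ e, ∀ w ∈ e, c u = c w := fun h3 =>
            hB (hmem e (mem_filter.2 ⟨he, heU, h3⟩))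
          push Not at hC hB
          obtain ⟨u, hu, w, hw, h3⟩ := hC
          refine ⟨u, hu, w, hw, ?_⟩
          show (if u ∈ U' then c' u else j * Q + c u) ≠ (if w ∈ U' then c' w else j * Q + c w)
          rw [if_neg (hB u hu), if_neg (hB w hw)]
          intro h4
          exact h3 (Fin.ext (by omega))

theorem taskCol : TaskCol := by
  intro n R 𝓗 Q j ρ hQ hρ hne hdeg h
  obtain ⟨c, h1, h2⟩ := iterate hQ hρ hne hdeg j R subset_rfl h
  exact ⟨c, h1, fun e he => h2 e he (hne e he).2⟩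

end Pool.Agent.L5helper61.CQ
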